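import Pool.Agent.Helper42.DB.Goals2

/-!
# UPB: the number of periodic orbits is at most the number of words
-/

set_option autoImplicit false

namespace Pool.Agent.Helper42.DB.PkUPB

open Set Filter Topology

variable {S : Sys}

/-- A periodic orbit is the range of a trajectory whose period is the number of its points. -/
lemma orb (hF : G_FLB S) {O : Set (St S)} (hO : POrb S O) :
    0 < O.ncard ∧ ∃ z : ℕ → St S, (∀ k, Fl (z k) (z (k + 1))) ∧
      (∀ k, z (k + O.ncard) = z k) ∧ O = range z := by
  classical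
  obtain ⟨z, p, hp, hfl, hper, rfl⟩ := hO
  have hex : ∃ q : ℕ, 0 < q ∧ ∀ k, z (k + q) = z k := ⟨p, hp, hper⟩
  obtain ⟨hp0, hper0⟩ := Nat.find_spec hex
  have hmin : ∀ q, q < Nat.find hex → ¬ (0 < q ∧ ∀ k, z (k + q) = z k) :=
    fun q hq => Nat.find_min hex hq
  set p0 := Nat.find hex with hp0def
  -- determinism
  have hdet : ∀ a b, z a = z b → ∀ s, z (a + s) = z (b + s) := by
    intro a b hab s
    induction s with
    | zero => simpa using hab
    | succ s ih =>
      have h1 := hfl (a + s)
      have h2 := hfl (b + s)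
      rw [← ih] at h2
      exact hF.2.2 _ _ _ h1 h2
  have hmul : ∀ m k, z (k + m * p0) = z k := by
    intro m
    induction m with
    | zero => intro k; simp
    | succ m ih =>
      intro k
      rw [Nat.succ_mul, ← Nat.add_assoc, hper0, ih]
  have hlt : ∀ a b, a < b → b < p0 → z a ≠ z b := by
    intro a b hab hb hz
    apply hmin (b - a) (by omega)
    refine ⟨by omega, fun k => ?_⟩
    have h1 : a ≤ k + a * p0 := by
      calc a = a * 1 := (mul_one a).symm
        _ ≤ a * p0 := Nat.mul_le_mul_left a hp0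
        _ ≤ k + a * p0 := Nat.le_add_left _ _
    obtain ⟨s, hs⟩ := Nat.exists_eq_add_of_le h1
    have h2 := hdet a b hz s
    rw [← hs] at h2
    have h3 : b + s = (k + (b - a)) + a * p0 := by omega
    rw [h3, hmul, hmul] at h2
    exact h2.symm
  have hinj : InjOn z (↑(Finset.range p0) : Set ℕ) := by
    intro a ha b hb hab
    simp only [Finset.coe_range, mem_Iio] at ha hb
    rcases lt_trichotomy a b with h | h | h
    · exact absurd hab (hlt a b h hb)
    · exact h
    · exact absurd hab.symm (hlt b a h ha)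
  have hrange : range z = z '' (↑(Finset.range p0) : Set ℕ) := by
    apply Subset.antisymm
    · rintro _ ⟨k, rfl⟩
      refine ⟨k % p0, by simpa using Nat.mod_lt k hp0, ?_⟩
      have h1 := hmul (k / p0) (k % p0)
      have h2 : k % p0 + k / p0 * p0 = k := by
        rw [mul_comm]; exact Nat.mod_add_div k p0
      rw [h2] at h1
      exact h1.symm
    · exact image_subset_range _ _
  have hcard : (range z).ncard = p0 := by
    rw [hrange, InjOn.ncard_image hinj, ncard_coe_finset, Finset.card_range]
  rw [hcard]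
  exact ⟨hp0, z, hfl, hper0, rfl⟩

theorem thm (S : Sys) : G_FLB S → G_PERU S → G_UPB S := by
  classical
  intro hF hP
  have key : ∀ k : ℕ, {O : Set (St S) | POrb S O ∧ O.ncard = k}.Finite ∧
      {O : Set (St S) | POrb S O ∧ O.ncard = k}.ncard ≤ AW S k := by
    intro k
    have hch : ∀ O : {O : Set (St S) | POrb S O ∧ O.ncard = k}, ∃ z : ℕ → St S, (0 < k ∧
        (∀ j, Fl (z j) (z (j + 1))) ∧ (∀ j, z (j + k) = z j) ∧ O.1 = range z) := by
      rintro ⟨O, hO, hk⟩
      obtain ⟨h1, z, h2, h3, h4⟩ := orb hF hO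
      rw [hk] at h1 h3
      exact ⟨z, h1, h2, h3, h4⟩
    choose Z hZ using hch
    let f : {O : Set (St S) | POrb S O ∧ O.ncard = k} → res k '' {w | PW S k w} :=
      fun O => ⟨res k (fun j => (Z O j).i), (fun j => (Z O j).i),
        ⟨Z O, ⟨fun j _ => ((hZ O).2.1 j).1, fun j _ => (hZ O).2.1 j⟩, fun j _ => rfl⟩, rfl⟩
    have hf : Function.Injective f := by
      intro O O' h
      have h1 : res k (fun j => (Z O j).i) = res k (fun j => (Z O' j).i) :=
        congrArg Subtype.val h
      have h2 : Z O = Z O' := by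
        refine hP k _ _ (hZ O).1 (hZ O).2.1 (hZ O').2.1 (hZ O).2.2.1 (hZ O').2.2.1 ?_
        intro j hj
        exact congrFun h1 ⟨j, Nat.lt_succ_of_lt hj⟩
      apply Subtype.ext
      rw [(hZ O).2.2.2, (hZ O').2.2.2, h2]
    have hfin : Finite (res k '' {w : ℕ → S.ι | PW S k w}) := inferInstance
    have hfin2 : Finite {O : Set (St S) | POrb S O ∧ O.ncard = k} :=
      Finite.of_injective f hf
    refine ⟨Set.toFinite _, ?_⟩
    unfold AW cnt
    rw [← Nat.card_coe_set_eq, ← Nat.card_coe_set_eq]
    exact Nat.card_le_card_of_injective f hf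
  intro n
  unfold fS
  induction n with
  | zero =>
    have h0 : {O : Set (St S) | POrb S O ∧ O.ncard ≤ 0}
        = {O : Set (St S) | POrb S O ∧ O.ncard = 0} := by
      ext O; simp
    rw [h0]
    refine ⟨(key 0).1, ?_⟩
    simpa using (key 0).2
  | succ n ih =>
    have h0 : {O : Set (St S) | POrb S O ∧ O.ncard ≤ n + 1}
        = {O : Set (St S) | POrb S O ∧ O.ncard ≤ n} ∪
          {O : Set (St S) | POrb S O ∧ O.ncard = n + 1} := by
      ext O
      simp only [mem_setOf_eq, mem_union]
      constructor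
      · rintro ⟨h1, h2⟩
        rcases Nat.lt_or_ge n O.ncard with h | h
        · exact Or.inr ⟨h1, by omega⟩
        · exact Or.inl ⟨h1, h⟩
      · rintro (⟨h1, h2⟩ | ⟨h1, h2⟩)
        · exact ⟨h1, by omega⟩
        · exact ⟨h1, by omega⟩
    rw [h0, Finset.sum_range_succ]
    exact ⟨ih.1.union (key (n + 1)).1,
      (ncard_union_le _ _).trans (Nat.add_le_add ih.2 (key (n + 1)).2)⟩

end Pool.Agent.Helper42.DB.PkUPB
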